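import Mathlib
import Pool.Agent.J4H89.WU.Bas

/-!
# Transport of `mu` and `nu` under relabelling
-/

namespace Pool.Agent.J4H63.WU

open Pool.Agent.J4H89.WU
open Pool.Agent.TH968.UST

theorem conn_map {r1 r2 : Setoid ℕ} {T1 T2 : Set (Sym2 ℕ)} (f : ℕ → ℕ)
    (h1 : ∀ v w, r1 v w → r2 (f v) (f w)) (h2 : ∀ v w, s(v, w) ∈ T1 → s(f v, f w) ∈ T2)
    {a b : ℕ} (h : Conn r1 T1 a b) : Conn r2 T2 (f a) (f b) := by
  unfold Conn at h ⊢
  induction h with
  | rel x y hxy => exact Relation.EqvGen.rel _ _ (hxy.imp (h1 x y) (h2 x y))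
  | refl x => exact Relation.EqvGen.refl _
  | symm x y _ ih => exact Relation.EqvGen.symm _ _ ih
  | trans x y z _ _ ih1 ih2 => exact Relation.EqvGen.trans _ _ _ ih1 ih2

section

variable {r : ℕ → ℕ} {H : Set ℕ}

theorem inj_edge (hr : Set.InjOn r H) {e e' : Sym2 ℕ} (he : ∀ v ∈ e, v ∈ H)
    (he' : ∀ v ∈ e', v ∈ H) (h : Sym2.map r e = Sym2.map r e') : e = e' := by
  induction e using Sym2.ind with
  | _ a b =>
    induction e' using Sym2.ind with
    | _ c d =>
      have ha := he a (Sym2.mem_mk_left a b)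
      have hb := he b (Sym2.mem_mk_right a b)
      have hc := he' c (Sym2.mem_mk_left c d)
      have hd := he' d (Sym2.mem_mk_right c d)
      rw [Sym2.map_mk, Sym2.map_mk, Sym2.eq_iff] at h
      rw [Sym2.eq_iff]
      rcases h with ⟨h1, h2⟩ | ⟨h1, h2⟩
      · exact Or.inl ⟨hr ha hc h1, hr hb hd h2⟩
      · exact Or.inr ⟨hr ha hd h1, hr hb hc h2⟩

theorem conn_iff (hr : Set.InjOn r H) {C : Finset ℕ} (hC : (C : Set ℕ) ⊆ H)
    {T : Set (Sym2 ℕ)} (hT : ∀ e ∈ T, ∀ v ∈ e, v ∈ H) {a b : ℕ} (ha : a ∈ H) (hb : b ∈ H) :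
    Conn (wired (C.image r)) (Sym2.map r '' T) (r a) (r b) ↔ Conn (wired C) T a b := by
  classical
  constructor
  · intro h
    obtain ⟨z, hz⟩ := Infinite.exists_notMem_finset C
    let g : ℕ → ℕ := fun y => if h : ∃ a ∈ H, r a = y then h.choose else z
    have hg : ∀ a ∈ H, g (r a) = a := by
      intro a ha
      have h1 : ∃ b ∈ H, r b = r a := ⟨a, ha, rfl⟩
      simp only [g]
      rw [dif_pos h1]
      exact hr h1.choose_spec.1 ha h1.choose_spec.2
    have hgo : ∀ y, y ∉ C.image r → g y ∉ C := by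
      intro y hy
      by_cases h1 : ∃ a ∈ H, r a = y
      · obtain ⟨a, ha, rfl⟩ := h1
        rw [hg a ha]
        intro h2
        exact hy (Finset.mem_image_of_mem _ h2)
      · simp only [g]
        rw [dif_neg h1]
        exact hz
    have h3 := conn_map (r2 := wired C) (T2 := T) g (by
        rintro v w (h | h)
        · exact Or.inl (congrArg g h)
        · exact Or.inr ⟨hgo _ h.1, hgo _ h.2⟩) (by
        rintro v w ⟨e, he, h4⟩
        induction e using Sym2.ind with
        | _ c d =>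
          have hc := hT _ he c (Sym2.mem_mk_left c d)
          have hd := hT _ he d (Sym2.mem_mk_right c d)
          rw [Sym2.map_mk, Sym2.eq_iff] at h4
          rcases h4 with ⟨rfl, rfl⟩ | ⟨rfl, rfl⟩
          · rw [hg c hc, hg d hd]
            exact he
          · rw [hg c hc, hg d hd, Sym2.eq_swap]
            exact he) h
    rwa [hg a ha, hg b hb] at h3
  · intro h
    obtain ⟨z, hz⟩ := Infinite.exists_notMem_finset (C.image r)
    let g : ℕ → ℕ := fun y => if y ∈ H then r y else z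
    have hg : ∀ a ∈ H, g a = r a := fun a ha => if_pos ha
    have hgo : ∀ y, y ∉ C → g y ∉ C.image r := by
      intro y hy
      by_cases h1 : y ∈ H
      · rw [hg y h1]
        intro h2
        obtain ⟨c, hc, h3⟩ := Finset.mem_image.1 h2
        exact hy (hr (hC hc) h1 h3 ▸ hc)
      · simp only [g]
        rw [if_neg h1]
        exact hz
    have h3 := conn_map (r2 := wired (C.image r)) (T2 := Sym2.map r '' T) g (by
        rintro v w (h | h)
        · exact Or.inl (congrArg g h)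
        · exact Or.inr ⟨hgo _ h.1, hgo _ h.2⟩) (by
        intro v w h4
        rw [hg v (hT _ h4 v (Sym2.mem_mk_left v w)), hg w (hT _ h4 w (Sym2.mem_mk_right v w))]
        exact ⟨_, h4, Sym2.map_mk _ _ _⟩) h
    rwa [hg a ha, hg b hb] at h3

theorem isSpan_iff (hr : Set.InjOn r H) {C : Finset ℕ} (hC : (C : Set ℕ) ⊆ H)
    {E T : Set (Sym2 ℕ)} (hE : ∀ e ∈ E, ∀ v ∈ e, v ∈ H) (hT : ∀ e ∈ T, ∀ v ∈ e, v ∈ H) :
    IsSpan (wired (C.image r)) (Sym2.map r '' E) (Sym2.map r '' T) ↔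
      IsSpan (wired C) E T := by
  have hsd : ∀ e ∈ T, Sym2.map r '' T \ {Sym2.map r e} = Sym2.map r '' (T \ {e}) := by
    intro e he
    ext e'
    constructor
    · rintro ⟨⟨e1, h1, rfl⟩, h2⟩
      refine ⟨e1, ⟨h1, ?_⟩, rfl⟩
      intro h3
      rw [Set.mem_singleton_iff] at h3
      exact h2 (by rw [h3]; rfl)
    · rintro ⟨e1, ⟨h1, h2⟩, rfl⟩
      refine ⟨⟨e1, h1, rfl⟩, ?_⟩
      intro h3
      exact h2 (inj_edge hr (hT _ h1) (hT _ he) h3)
  unfold IsSpan
  refine and_congr ?_ (and_congr ?_ ?_)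
  · constructor
    · intro h e he
      obtain ⟨e', he', h1⟩ := h ⟨e, he, rfl⟩
      rwa [← inj_edge hr (hE _ he') (hT _ he) h1]
    · intro h
      exact Set.image_mono h
  · constructor
    · intro h a b hab
      rw [← conn_iff hr hC hT (hE _ hab a (Sym2.mem_mk_left a b))
        (hE _ hab b (Sym2.mem_mk_right a b))]
      exact h _ _ ⟨_, hab, Sym2.map_mk _ _ _⟩
    · rintro h a' b' ⟨e, he, h1⟩
      induction e using Sym2.ind with
      | _ a b =>
        have h2 := (conn_iff hr hC hT (hE _ he a (Sym2.mem_mk_left a b))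
          (hE _ he b (Sym2.mem_mk_right a b))).2 (h a b he)
        rw [Sym2.map_mk, Sym2.eq_iff] at h1
        rcases h1 with ⟨rfl, rfl⟩ | ⟨rfl, rfl⟩
        · exact h2
        · exact Relation.EqvGen.symm _ _ h2
  · constructor
    · intro h a b hab h1
      apply h (r a) (r b) ⟨_, hab, Sym2.map_mk _ _ _⟩
      rw [← Sym2.map_mk r a b, hsd _ hab]
      rw [conn_iff hr hC (fun e he => hT e he.1) (hT _ hab a (Sym2.mem_mk_left a b))
        (hT _ hab b (Sym2.mem_mk_right a b))]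
      exact h1
    · rintro h a' b' ⟨e, he, h1⟩ h2
      rw [← h1, hsd _ he] at h2
      induction e using Sym2.ind with
      | _ a b =>
        apply h a b he
        rw [Sym2.map_mk, Sym2.eq_iff] at h1
        rw [← conn_iff hr hC (fun e he => hT e he.1) (hT _ he a (Sym2.mem_mk_left a b))
          (hT _ he b (Sym2.mem_mk_right a b))]
        rcases h1 with ⟨rfl, rfl⟩ | ⟨rfl, rfl⟩
        · exact h2
        · exact Relation.EqvGen.symm _ _ h2

theorem trees_image [DecidableEq (Sym2 ℕ)] (hr : Set.InjOn r H) {C : Finset ℕ}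
    (hC : (C : Set ℕ) ⊆ H) {E : Finset (Sym2 ℕ)} (hE : ∀ e ∈ E, ∀ v ∈ e, v ∈ H) :
    trees (wired (C.image r)) (E.image (Sym2.map r)) =
      (trees (wired C) E).image (Finset.image (Sym2.map r)) := by
  classical
  ext T'
  unfold trees
  rw [Finset.mem_filter, Finset.mem_powerset, Finset.mem_image]
  constructor
  · rintro ⟨h1, h2⟩
    obtain ⟨T, h3, rfl⟩ := Finset.subset_image_iff.1 h1
    refine ⟨T, ?_, rfl⟩
    rw [Finset.mem_filter, Finset.mem_powerset]
    have h3' : T ⊆ E := h3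
    refine ⟨h3', ?_⟩
    rw [Finset.coe_image, Finset.coe_image] at h2
    exact (isSpan_iff hr hC (by exact_mod_cast hE)
      (fun e he => hE e (h3' (Finset.mem_coe.1 he)))).1 h2
  · rintro ⟨T, h1, rfl⟩
    rw [Finset.mem_filter, Finset.mem_powerset] at h1
    refine ⟨Finset.image_subset_image h1.1, ?_⟩
    rw [Finset.coe_image, Finset.coe_image]
    exact (isSpan_iff hr hC (by exact_mod_cast hE)
      (fun e he => hE e (h1.1 (Finset.mem_coe.1 he)))).2 h1.2

theorem tch_image (hr : Set.InjOn r H) {C : Finset ℕ}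
    (hC : (C : Set ℕ) ⊆ H) {E : Finset (Sym2 ℕ)} (hE : ∀ e ∈ E, ∀ v ∈ e, v ∈ H) :
    tch (E.image (Sym2.map r)) (C.image r) = (tch E C).image (Sym2.map r) := by
  classical
  ext e'
  rw [mem_tch, Finset.mem_image, Finset.mem_image]
  constructor
  · rintro ⟨⟨e, he, rfl⟩, v', hv', hve⟩
    obtain ⟨v, hv, rfl⟩ := Finset.mem_image.1 hv'
    obtain ⟨w, hw, h1⟩ := Sym2.mem_map.1 hve
    refine ⟨e, mem_tch.2 ⟨he, v, hv, ?_⟩, rfl⟩
    rwa [← hr (hE e he w hw) (hC hv) h1]
  · rintro ⟨e, he, rfl⟩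
    obtain ⟨he, v, hv, hve⟩ := mem_tch.1 he
    exact ⟨⟨e, he, rfl⟩, r v, Finset.mem_image_of_mem _ hv, Sym2.mem_map.2 ⟨v, hve, rfl⟩⟩

theorem inn_image (hr : Set.InjOn r H) {C : Finset ℕ}
    (hC : (C : Set ℕ) ⊆ H) {E : Finset (Sym2 ℕ)} (hE : ∀ e ∈ E, ∀ v ∈ e, v ∈ H) :
    inn (E.image (Sym2.map r)) (C.image r) = (inn E C).image (Sym2.map r) := by
  classical
  ext e'
  rw [mem_inn, Finset.mem_image, Finset.mem_image]
  constructor
  · rintro ⟨⟨e, he, rfl⟩, h⟩
    refine ⟨e, mem_inn.2 ⟨he, ?_⟩, rfl⟩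
    intro w hw
    obtain ⟨v, hv, h1⟩ := Finset.mem_image.1 (h (r w) (Sym2.mem_map.2 ⟨w, hw, rfl⟩))
    rwa [← hr (hC hv) (hE e he w hw) h1]
  · rintro ⟨e, he, rfl⟩
    obtain ⟨he, h⟩ := mem_inn.1 he
    refine ⟨⟨e, he, rfl⟩, ?_⟩
    intro v hv
    obtain ⟨w, hw, rfl⟩ := Sym2.mem_map.1 hv
    exact Finset.mem_image_of_mem _ (h w hw)

theorem injOn_sub (hr : Set.InjOn r H) {E : Finset (Sym2 ℕ)} (hE : ∀ e ∈ E, ∀ v ∈ e, v ∈ H) :
    Set.InjOn (Sym2.map r) (E : Set (Sym2 ℕ)) :=
  fun e he e' he' h => inj_edge hr (hE e he) (hE e' he') h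

theorem mu_image (hr : Set.InjOn r H) {C : Finset ℕ}
    (hC : (C : Set ℕ) ⊆ H) {E : Finset (Sym2 ℕ)} (hE : ∀ e ∈ E, ∀ v ∈ e, v ∈ H)
    {S : Finset (Sym2 ℕ)} (hS : S ⊆ E) :
    mu (E.image (Sym2.map r)) (C.image r) (S.image (Sym2.map r)) = mu E C S := by
  classical
  have hi : Set.InjOn (Sym2.map r) (E : Set (Sym2 ℕ)) := injOn_sub hr hE
  have ht : tch E C ⊆ E := fun e he => (mem_tch.1 he).1
  have hn : inn E C ⊆ E := fun e he => (mem_inn.1 he).1
  have hinj : ∀ S T : Finset (Sym2 ℕ), S ⊆ E → T ⊆ E →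
      S.image (Sym2.map r) = T.image (Sym2.map r) → S = T := by
    have key : ∀ S T : Finset (Sym2 ℕ), S ⊆ E → T ⊆ E →
        S.image (Sym2.map r) = T.image (Sym2.map r) → S ⊆ T := by
      intro S T hS hT h e he
      have h1 := Finset.mem_image_of_mem (Sym2.map r) he
      rw [h] at h1
      obtain ⟨e', he', h2⟩ := Finset.mem_image.1 h1
      rwa [← hi (Finset.mem_coe.2 (hT he')) (Finset.mem_coe.2 (hS he)) h2]
    intro S T hS hT h
    exact Finset.Subset.antisymm (key S T hS hT h) (key T S hT hS h.symm)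
  have htr : ∀ T ∈ trees (wired C) (tch E C), T ⊆ E := by
    intro T hT
    unfold trees at hT
    exact (Finset.mem_powerset.1 (Finset.mem_filter.1 hT).1).trans ht
  have h1 : trees (wired (C.image r)) (tch (E.image (Sym2.map r)) (C.image r)) =
      (trees (wired C) (tch E C)).image (Finset.image (Sym2.map r)) := by
    rw [tch_image hr hC hE]
    exact trees_image hr hC fun e he => hE e (ht he)
  have hci : ∀ S T : Finset (Sym2 ℕ), S ⊆ E → T ⊆ E →
      S.image (Sym2.map r) ∩ T.image (Sym2.map r) = (S ∩ T).image (Sym2.map r) := by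
    intro S T hS hT
    exact (Finset.image_inter_of_injOn S T (hi.mono (by
      rw [Set.union_subset_iff]
      exact ⟨Finset.coe_subset.2 hS, Finset.coe_subset.2 hT⟩))).symm
  have h2 : (trees (wired (C.image r)) (tch (E.image (Sym2.map r)) (C.image r))).filter
      (fun T => T ∩ inn (E.image (Sym2.map r)) (C.image r) = S.image (Sym2.map r)) =
      ((trees (wired C) (tch E C)).filter fun T => T ∩ inn E C = S).image
        (Finset.image (Sym2.map r)) := by
    rw [h1, inn_image hr hC hE]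
    ext T'
    rw [Finset.mem_filter, Finset.mem_image, Finset.mem_image]
    constructor
    · rintro ⟨⟨T, hT, rfl⟩, h3⟩
      refine ⟨T, Finset.mem_filter.2 ⟨hT, ?_⟩, rfl⟩
      rw [hci _ _ (htr T hT) hn] at h3
      exact hinj _ _ (Finset.inter_subset_left.trans (htr T hT)) hS h3
    · rintro ⟨T, hT, rfl⟩
      obtain ⟨hT, h3⟩ := Finset.mem_filter.1 hT
      refine ⟨⟨T, hT, rfl⟩, ?_⟩
      rw [hci _ _ (htr T hT) hn, h3]
  unfold mu
  congr 1
  · norm_cast
    rw [← Finset.card_image_of_injOn (s := (trees (wired C) (tch E C)).filter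
      fun T => T ∩ inn E C = S) (f := Finset.image (Sym2.map r)), ← h2]
    · intro T hT T' hT' h
      exact hinj T T' (htr T (Finset.mem_filter.1 hT).1) (htr T' (Finset.mem_filter.1 hT').1) h
  · norm_cast
    rw [h1, Finset.card_image_of_injOn]
    intro T hT T' hT' h
    exact hinj T T' (htr T hT) (htr T' hT') h

end

theorem t_TRANS : S_TRANS := by
  classical
  intro E C r hr
  have hE : ∀ e ∈ E, ∀ v ∈ e, v ∈ (hull E C : Set ℕ) :=
    fun e he v hv => Finset.mem_coe.2 (mem_hull.2 (Or.inr ⟨e, he, hv⟩))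
  have hC : (C : Set ℕ) ⊆ (hull E C : Set ℕ) :=
    fun v hv => Finset.mem_coe.2 (mem_hull.2 (Or.inl hv))
  have h1 : ∀ C' ⊆ C, ∀ S ⊆ E,
      mu (E.image (Sym2.map r)) (C'.image r) (S.image (Sym2.map r)) = mu E C' S := by
    intro C' hC' S hS
    exact mu_image hr ((Finset.coe_subset.2 hC').trans hC) hE hS
  refine ⟨fun S hS => by convert h1 C (Finset.Subset.refl _) S hS, ?_⟩
  intro Q hQ S hS
  have hi : Set.InjOn (Sym2.map r) (E : Set (Sym2 ℕ)) := injOn_sub hr hE
  have hin : ∀ B ∈ Q, inn (E.image (Sym2.map r)) (B.image r) =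
      (inn E B).image (Sym2.map r) := fun B hB =>
    inn_image hr ((Finset.coe_subset.2 (hQ B hB)).trans hC) hE
  have hsub : ∀ B, inn E B ⊆ E := fun B e he => (mem_inn.1 he).1
  have h2 : S.image (Sym2.map r) ⊆
      (Q.image fun B => B.image r).biUnion (inn (E.image (Sym2.map r))) ↔
      S ⊆ Q.biUnion (inn E) := by
    constructor
    · intro h e he
      obtain ⟨B', hB', he'⟩ := Finset.mem_biUnion.1 (h (Finset.mem_image_of_mem _ he))
      obtain ⟨B, hB, rfl⟩ := Finset.mem_image.1 hB'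
      rw [hin B hB] at he'
      obtain ⟨e1, h3, h4⟩ := Finset.mem_image.1 he'
      refine Finset.mem_biUnion.2 ⟨B, hB, ?_⟩
      rwa [← hi (Finset.mem_coe.2 (hsub B h3)) (Finset.mem_coe.2 (hS he)) h4]
    · intro h e' he'
      obtain ⟨e, he, rfl⟩ := Finset.mem_image.1 he'
      obtain ⟨B, hB, h3⟩ := Finset.mem_biUnion.1 (h he)
      refine Finset.mem_biUnion.2 ⟨B.image r, Finset.mem_image_of_mem _ hB, ?_⟩
      rw [hin B hB]
      exact Finset.mem_image_of_mem _ h3
  unfold nu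
  by_cases h3 : S ⊆ Q.biUnion (inn E)
  · rw [if_pos (by convert h2.2 h3), if_pos (by convert h3)]
    rw [Finset.prod_image]
    · refine Finset.prod_congr rfl fun B hB => ?_
      rw [← h1 B (hQ B hB) (S ∩ inn E B) (Finset.inter_subset_left.trans hS)]
      congr 1
      rw [hin B hB, Finset.image_inter_of_injOn]
      exact hi.mono (by
        rw [Set.union_subset_iff]
        exact ⟨Finset.coe_subset.2 hS, Finset.coe_subset.2 (hsub B)⟩)
    · have key : ∀ B ∈ Q, ∀ B' ∈ Q, B.image r = B'.image r → B ⊆ B' := by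
        intro B hB B' hB' h v hv
        have h4 : r v ∈ B'.image r := h ▸ Finset.mem_image_of_mem r hv
        obtain ⟨w, hw, h5⟩ := Finset.mem_image.1 h4
        rwa [← hr (hC (hQ B' hB' hw)) (hC (hQ B hB hv)) h5]
      intro B hB B' hB' h
      exact Finset.Subset.antisymm (key B hB B' hB' h) (key B' hB' B hB h.symm)
  · rw [if_neg (fun h4 => h3 (h2.1 (by convert h4))), if_neg (by convert h3)]

end Pool.Agent.J4H63.WU
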