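import Mathlib
import Pool.Agent.J4H89.WU.Bas
import Pool.Agent.J4H63.WU.Trans

/-!
# Equivariance of the construction
-/

namespace Pool.Agent.J4H63.WU

open Pool.Agent.J4H89.WU
open Pool.Agent.TH968.UST
open scoped ENNReal unitInterval

/-- `φ` is an isomorphism from the part `K` of `G` (closed under adjacency) onto a part of `G'`
which is closed under adjacency -/
structure Tr (G G' : SimpleGraph ℕ) (K : Set ℕ) (φ : ℕ → ℕ) : Prop where
  inj : Set.InjOn φ K
  adj : ∀ y ∈ K, ∀ z ∈ K, (G'.Adj (φ y) (φ z) ↔ G.Adj y z)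
  cl : ∀ y ∈ K, ∀ z, G.Adj y z → z ∈ K
  cl' : ∀ y ∈ K, ∀ w, G'.Adj (φ y) w → ∃ z ∈ K, φ z = w

section

variable {G G' : SimpleGraph ℕ} {K : Set ℕ} {φ : ℕ → ℕ}

theorem Tr.vert (h : Tr G G' K φ) {C : Finset ℕ} (hC : (C : Set ℕ) ⊆ K) {e : Sym2 ℕ}
    (he : e ∈ touch G C) : ∀ v ∈ e, v ∈ K := by
  obtain ⟨h1, v, hv, hve⟩ := he
  obtain ⟨w, rfl⟩ := Sym2.mem_iff_exists.1 hve
  intro z hz
  rcases Sym2.mem_iff.1 hz with rfl | rfl
  · exact hC hv
  · exact h.cl v (hC hv) _ h1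

theorem Tr.touch_image (h : Tr G G' K φ) {C : Finset ℕ} (hC : (C : Set ℕ) ⊆ K) :
    touch G' (C.image φ) = Sym2.map φ '' touch G C := by
  classical
  ext e'
  constructor
  · rintro ⟨h1, v', hv', hve⟩
    obtain ⟨v, hv, rfl⟩ := Finset.mem_image.1 hv'
    obtain ⟨w, rfl⟩ := Sym2.mem_iff_exists.1 hve
    obtain ⟨z, hz, rfl⟩ := h.cl' v (hC hv) w h1
    refine ⟨s(v, z), ⟨?_, v, hv, Sym2.mem_mk_left v z⟩, Sym2.map_mk _ _ _⟩
    exact (h.adj v (hC hv) z hz).1 h1
  · rintro ⟨e, he, rfl⟩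
    have h2 := h.vert hC he
    obtain ⟨h1, v, hv, hve⟩ := he
    obtain ⟨w, rfl⟩ := Sym2.mem_iff_exists.1 hve
    refine ⟨?_, φ v, Finset.mem_image_of_mem _ hv, Sym2.mem_map.2 ⟨v, hve, rfl⟩⟩
    exact (h.adj v (hC hv) w (h2 w (Sym2.mem_mk_right v w))).2 h1

theorem Tr.te_image (h : Tr G G' K φ) {C : Finset ℕ} (hC : (C : Set ℕ) ⊆ K) :
    te G' (C.image φ) = (te G C).image (Sym2.map φ) := by
  classical
  by_cases h1 : (touch G C).Finite
  · have h2 : (touch G' (C.image φ)).Finite := by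
      rw [h.touch_image hC]
      exact h1.image _
    apply Finset.coe_injective
    rw [coe_te h2, Finset.coe_image, coe_te h1, h.touch_image hC]
  · have h2 : ¬ (touch G' (C.image φ)).Finite := by
      rw [h.touch_image hC]
      intro h2
      exact h1 (h2.of_finite_image fun e he e' he' h3 =>
        inj_edge h.inj (h.vert hC he) (h.vert hC he') h3)
    unfold te
    rw [dif_neg h1, dif_neg h2, Finset.image_empty]

theorem te_vert (h : Tr G G' K φ) {C : Finset ℕ} (hC : (C : Set ℕ) ⊆ K) :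
    ∀ e ∈ te G C, ∀ v ∈ e, v ∈ K := by
  intro e he
  exact h.vert hC (te_sub he)

theorem rk_image {o o' : ℕ → I} (hi : Set.InjOn φ K) (ho : ∀ y ∈ K, o' (φ y) = o y)
    {A : Finset ℕ} (hA : (A : Set ℕ) ⊆ K) {v : ℕ} (hv : v ∈ K) :
    rk o' (A.image φ) (φ v) = rk o A v := by
  classical
  unfold rk
  have h1 : (A.image φ).filter (fun w => o' w < o' (φ v)) =
      (A.filter fun w => o w < o v).image φ := by
    ext w'
    rw [Finset.mem_filter, Finset.mem_image, Finset.mem_image]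
    constructor
    · rintro ⟨⟨w, hw, rfl⟩, h2⟩
      refine ⟨w, Finset.mem_filter.2 ⟨hw, ?_⟩, rfl⟩
      rwa [ho w (hA hw), ho v hv] at h2
    · rintro ⟨w, hw, rfl⟩
      obtain ⟨hw, h2⟩ := Finset.mem_filter.1 hw
      refine ⟨⟨w, hw, rfl⟩, ?_⟩
      rwa [ho w (hA hw), ho v hv]
  rw [← Finset.card_image_of_injOn (s := A.filter fun w => o w < o v) (f := φ), ← h1]
  exact hi.mono fun w hw => hA (Finset.mem_filter.1 hw).1

theorem map_rk {o o' : ℕ → I} (hi : Set.InjOn φ K) (ho : ∀ y ∈ K, o' (φ y) = o y)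
    {A : Finset ℕ} (hA : (A : Set ℕ) ⊆ K) {e : Sym2 ℕ} (he : ∀ v ∈ e, v ∈ K) :
    Sym2.map (rk o' (A.image φ)) (Sym2.map φ e) = Sym2.map (rk o A) e := by
  induction e using Sym2.ind with
  | _ a b =>
    rw [Sym2.map_mk, Sym2.map_mk, Sym2.map_mk,
      rk_image hi ho hA (he a (Sym2.mem_mk_left a b)),
      rk_image hi ho hA (he b (Sym2.mem_mk_right a b))]

theorem hull_image (E : Finset (Sym2 ℕ)) (C : Finset ℕ) :
    hull (E.image (Sym2.map φ)) (C.image φ) = (hull E C).image φ := by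
  classical
  ext v'
  rw [mem_hull, Finset.mem_image, Finset.mem_image]
  constructor
  · rintro (⟨v, hv, rfl⟩ | ⟨e', he', hv'⟩)
    · exact ⟨v, mem_hull.2 (Or.inl hv), rfl⟩
    · obtain ⟨e, he, rfl⟩ := Finset.mem_image.1 he'
      obtain ⟨v, hv, rfl⟩ := Sym2.mem_map.1 hv'
      exact ⟨v, mem_hull.2 (Or.inr ⟨e, he, hv⟩), rfl⟩
  · rintro ⟨v, hv, rfl⟩
    rcases mem_hull.1 hv with hv | ⟨e, he, hv⟩
    · exact Or.inl ⟨v, hv, rfl⟩
    · exact Or.inr ⟨Sym2.map φ e, Finset.mem_image_of_mem _ he, Sym2.mem_map.2 ⟨v, hv, rfl⟩⟩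

theorem upd_image (F : Rule) {o o' : ℕ → I} (hi : Set.InjOn φ K)
    (ho : ∀ y ∈ K, o' (φ y) = o y) {E S : Finset (Sym2 ℕ)} {C : Finset ℕ}
    {Q : Finset (Finset ℕ)} (hE : ∀ e ∈ E, ∀ v ∈ e, v ∈ K) (hS : ∀ e ∈ S, ∀ v ∈ e, v ∈ K)
    (hC : (C : Set ℕ) ⊆ K) (hQ : ∀ B ∈ Q, (B : Set ℕ) ⊆ K) (w : I) :
    upd F (E.image (Sym2.map φ)) (C.image φ) (Q.image fun B => B.image φ)
      (S.image (Sym2.map φ)) o' w = (upd F E C Q S o w).image (Sym2.map φ) := by
  classical
  have hA : (hull E C : Set ℕ) ⊆ K := by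
    intro v hv
    rcases mem_hull.1 (Finset.mem_coe.1 hv) with hv | ⟨e, he, hv⟩
    · exact hC hv
    · exact hE e he v hv
  have e1 : ∀ T : Finset (Sym2 ℕ), (∀ e ∈ T, ∀ v ∈ e, v ∈ K) →
      (T.image (Sym2.map φ)).image (Sym2.map (rk o' ((hull E C).image φ))) =
        T.image (Sym2.map (rk o (hull E C))) := by
    intro T hT
    rw [Finset.image_image]
    exact Finset.image_congr fun e he => map_rk hi ho hA (hT e he)
  have e2 : ∀ B : Finset ℕ, (B : Set ℕ) ⊆ K →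
      (B.image φ).image (rk o' ((hull E C).image φ)) = B.image (rk o (hull E C)) := by
    intro B hB
    rw [Finset.image_image]
    exact Finset.image_congr fun v hv => rk_image hi ho hA (hB hv)
  have e3 : (Q.image fun B => B.image φ).image
      (fun B => B.image (rk o' ((hull E C).image φ))) =
      Q.image fun B => B.image (rk o (hull E C)) := by
    rw [Finset.image_image]
    exact Finset.image_congr fun B hB => e2 B (hQ B hB)
  ext e'
  rw [mem_upd, hull_image, e1 E hE, e1 S hS, e2 C hC, e3, inn_image hi hC hE,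
    Finset.mem_image, Finset.mem_image]
  constructor
  · rintro ⟨⟨e, he, rfl⟩, h2⟩
    refine ⟨e, mem_upd.2 ⟨he, ?_⟩, rfl⟩
    rwa [map_rk hi ho hA (hE e (mem_inn.1 he).1)] at h2
  · rintro ⟨e, he, rfl⟩
    obtain ⟨he, h2⟩ := mem_upd.1 he
    refine ⟨⟨e, he, rfl⟩, ?_⟩
    rwa [map_rk hi ho hA (hE e (mem_inn.1 he).1)]

theorem sel_image {o o' : ℕ → I} {u u' : ℕ → ℕ → I} (ho : ∀ y ∈ K, o' (φ y) = o y)
    (hu : ∀ y ∈ K, u' (φ y) = u y) {C : Finset ℕ} (hC : (C : Set ℕ) ⊆ K) (k : ℕ) :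
    sel o' u' (C.image φ) k = sel o u C k := by
  classical
  unfold sel
  have h1 : (C.image φ).filter (fun v => ∀ w ∈ C.image φ, o' v ≤ o' w) =
      (C.filter fun v => ∀ w ∈ C, o v ≤ o w).image φ := by
    ext v'
    rw [Finset.mem_filter, Finset.mem_image, Finset.mem_image]
    constructor
    · rintro ⟨⟨v, hv, rfl⟩, h2⟩
      refine ⟨v, Finset.mem_filter.2 ⟨hv, fun w hw => ?_⟩, rfl⟩
      have h3 := h2 (φ w) (Finset.mem_image_of_mem _ hw)
      rwa [ho v (hC hv), ho w (hC hw)] at h3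
    · rintro ⟨v, hv, rfl⟩
      obtain ⟨hv, h2⟩ := Finset.mem_filter.1 hv
      refine ⟨⟨v, hv, rfl⟩, fun w' hw' => ?_⟩
      obtain ⟨w, hw, rfl⟩ := Finset.mem_image.1 hw'
      rw [ho v (hC hv), ho w (hC hw)]
      exact h2 w hw
  have h2 : ((C.image φ).filter (fun v => ∀ w ∈ C.image φ, o' v ≤ o' w)).sup
      (fun v => u' v k) = (C.filter fun v => ∀ w ∈ C, o v ≤ o w).sup fun v => u v k := by
    rw [h1, Finset.sup_image]
    refine Finset.sup_congr rfl fun v hv => ?_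
    rw [Function.comp_apply, hu v (hC (Finset.mem_filter.1 hv).1)]
  convert h2

theorem X_vert (F : Rule) (G : SimpleGraph ℕ) (P : ℕ → ℕ → Finset ℕ) (o : ℕ → I)
    (u : ℕ → ℕ → I) (hP : ∀ k, ∀ y ∈ K, (P k y : Set ℕ) ⊆ K) :
    ∀ k, ∀ y ∈ K, ∀ e ∈ X F G P o u k y, ∀ v ∈ e, v ∈ K := by
  intro k y hy e he v hv
  cases k with
  | zero => simp [X] at he
  | succ k =>
    rw [X] at he
    exact hP (k + 1) y hy ((mem_inn.1 (mem_upd.1 he).1).2 v hv)

theorem X_image (F : Rule) (h : Tr G G' K φ) {P P' : ℕ → ℕ → Finset ℕ} {o o' : ℕ → I}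
    {u u' : ℕ → ℕ → I} (hP : ∀ k, ∀ y ∈ K, (P k y : Set ℕ) ⊆ K)
    (hPP : ∀ k, ∀ y ∈ K, P' k (φ y) = (P k y).image φ)
    (ho : ∀ y ∈ K, o' (φ y) = o y) (hu : ∀ y ∈ K, u' (φ y) = u y) :
    ∀ k, ∀ y ∈ K, X F G' P' o' u' k (φ y) = (X F G P o u k y).image (Sym2.map φ) := by
  classical
  intro k
  induction k with
  | zero =>
    intro y hy
    simp [X]
  | succ k ih =>
    intro y hy
    rw [X, X, hPP (k + 1) y hy, h.te_image (hP _ y hy), sel_image ho hu (hP _ y hy)]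
    have e1 : ((P (k + 1) y).image φ).image (P' k) =
        ((P (k + 1) y).image (P k)).image fun B => B.image φ := by
      rw [Finset.image_image, Finset.image_image]
      exact Finset.image_congr fun z hz => hPP k z (hP _ y hy hz)
    have e2 : ((P (k + 1) y).image φ).biUnion (X F G' P' o' u' k) =
        ((P (k + 1) y).biUnion (X F G P o u k)).image (Sym2.map φ) := by
      rw [Finset.image_biUnion, Finset.biUnion_image]
      exact Finset.biUnion_congr rfl fun z hz => ih z (hP _ y hy hz)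
    have e3 := upd_image F (o := o) (o' := o') h.inj ho (E := te G (P (k + 1) y))
      (S := (P (k + 1) y).biUnion (X F G P o u k)) (C := P (k + 1) y)
      (Q := (P (k + 1) y).image (P k)) (te_vert h (hP _ y hy))
      (by
        intro e he
        obtain ⟨z, hz, he⟩ := Finset.mem_biUnion.1 he
        exact X_vert F G P o u hP k z (hP _ y hy hz) e he) (hP _ y hy)
      (by
        intro B hB
        obtain ⟨z, hz, rfl⟩ := Finset.mem_image.1 hB
        exact hP k z (hP _ y hy hz)) (sel o u (P (k + 1) y) k)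
    convert e3 using 2

theorem Ph_image (F : Rule) (h : Tr G G' K φ) {P P' : ℕ → ℕ → Finset ℕ} {o o' : ℕ → I}
    {u u' : ℕ → ℕ → I} (hP : ∀ k, ∀ y ∈ K, (P k y : Set ℕ) ⊆ K)
    (hPP : ∀ k, ∀ y ∈ K, P' k (φ y) = (P k y).image φ)
    (ho : ∀ y ∈ K, o' (φ y) = o y) (hu : ∀ y ∈ K, u' (φ y) = u y)
    {y z : ℕ} (hy : y ∈ K) (hz : z ∈ K) :
    s(φ y, φ z) ∈ Ph F G' P' o' u' ↔ s(y, z) ∈ Ph F G P o u := by
  have key : ∀ k, ∀ v ∈ K, s(φ y, φ z) ∈ X F G' P' o' u' k (φ v) ↔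
      s(y, z) ∈ X F G P o u k v := by
    intro k v hv
    rw [X_image F h hP hPP ho hu k v hv, Finset.mem_image]
    constructor
    · rintro ⟨e, he, h1⟩
      rw [← Sym2.map_mk] at h1
      have h2 : e = s(y, z) := inj_edge h.inj (X_vert F G P o u hP k v hv e he) (by
        intro w hw
        rcases Sym2.mem_iff.1 hw with rfl | rfl
        · exact hy
        · exact hz) h1
      rwa [← h2]
    · intro he
      exact ⟨_, he, Sym2.map_mk _ _ _⟩
  constructor
  · rintro ⟨k, v', hv', he⟩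
    rcases Sym2.mem_iff.1 hv' with rfl | rfl
    · exact ⟨k, y, Sym2.mem_mk_left _ _, (key k y hy).1 he⟩
    · exact ⟨k, z, Sym2.mem_mk_right _ _, (key k z hz).1 he⟩
  · rintro ⟨k, v, hv, he⟩
    rcases Sym2.mem_iff.1 hv with rfl | rfl
    · exact ⟨k, φ v, Sym2.mem_mk_left _ _, (key k v hy).2 he⟩
    · exact ⟨k, φ v, Sym2.mem_mk_right _ _, (key k v hz).2 he⟩

end

/-- the data coming from an isomorphism of components -/
theorem tr_of_ciso {G G' : SimpleGraph ℕ} {x : ℕ} {φ : ℕ → ℕ} (h : CIso G G' x φ) :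
    Tr G G' (comp G x) φ where
  inj := h.1.injOn
  adj := h.2
  cl y hy z hyz := comp_adj hy hyz
  cl' y hy w hw := by
    have h1 : φ y ∈ comp G' (φ x) := h.1.mapsTo hy
    obtain ⟨z, hz, rfl⟩ := h.1.surjOn (comp_adj h1 hw)
    exact ⟨z, hz, rfl⟩

theorem cap_reach (hW : S_WALK) {ns : ℕ → ℕ} {G : SimpleGraph ℕ} {θ : ℕ → ℕ → I} {m x s : ℕ}
    (h : s ∈ cap ns G θ m x) : G.Reachable x s := by
  apply hW.2.2 G (ns m) x s
  intro h0
  have h1 : ENNReal.ofReal (θ s m : ℝ) < ((m : ℝ≥0∞) + 1) * ces G (ns m) x s := h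
  rw [h0, mul_zero] at h1
  exact not_lt_bot h1

theorem same_reach (hW : S_WALK) {ns : ℕ → ℕ} {G : SimpleGraph ℕ} {θ : ℕ → ℕ → I} {m x y : ℕ}
    (h : same ns G θ m x y) : G.Reachable x y := by
  rcases h with rfl | ⟨h1, s, hs⟩
  · exact SimpleGraph.Reachable.refl _
  · exact (cap_reach hW hs).trans (cap_reach hW (h1 ▸ hs)).symm

theorem cell_sub (hW : S_WALK) {ns : ℕ → ℕ} {G : SimpleGraph ℕ} {θ : ℕ → ℕ → I} (k : ℕ)
    {x y : ℕ} (h : y ∈ cell ns G θ k x) : G.Reachable x y := by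
  cases k with
  | zero =>
    simp only [cell, Finset.mem_singleton] at h
    rw [h]
  | succ k =>
    simp only [cell] at h
    split_ifs at h with h1
    · exact same_reach hW ((Set.Finite.mem_toFinset h1).1 h k le_rfl)
    · rw [Finset.mem_singleton.1 h]

theorem cell_image (hI : S_IDL) (hW : S_WALK) {ns : ℕ → ℕ} {G G' : SimpleGraph ℕ}
    {θ θ' : ℕ → ℕ → I} {x : ℕ} {φ : ℕ → ℕ} (h : CIso G G' x φ)
    (hθ : ∀ y ∈ comp G x, θ' (φ y) = θ y) (k : ℕ) {y : ℕ} (hy : y ∈ comp G x) :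
    cell ns G' θ' k (φ y) = (cell ns G θ k y).image φ := by
  classical
  have hcap : ∀ m, ∀ y ∈ comp G x, cap ns G' θ' m (φ y) = φ '' cap ns G θ m y := by
    intro m y hy
    have key : ∀ z ∈ comp G x, φ z ∈ cap ns G' θ' m (φ y) ↔ z ∈ cap ns G θ m y := by
      intro z hz
      unfold cap
      rw [Set.mem_setOf_eq, Set.mem_setOf_eq, hθ z hz, (hI G G' x φ h (ns m) y hy).1 z hz]
    ext s
    constructor
    · intro hs
      have h1 : s ∈ comp G' (φ x) :=
        SimpleGraph.Reachable.trans (h.1.mapsTo hy) (cap_reach hW hs)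
      obtain ⟨z, hz, rfl⟩ := h.1.surjOn h1
      exact ⟨z, (key z hz).1 hs, rfl⟩
    · rintro ⟨z, hz, rfl⟩
      exact (key z (SimpleGraph.Reachable.trans hy (cap_reach hW hz))).2 hz
  have hcsub : ∀ m, ∀ y ∈ comp G x, cap ns G θ m y ⊆ comp G x := fun m y hy s hs =>
    SimpleGraph.Reachable.trans hy (cap_reach hW hs)
  have hsame : ∀ m, ∀ y ∈ comp G x, ∀ z ∈ comp G x,
      same ns G' θ' m (φ y) (φ z) ↔ same ns G θ m y z := by
    intro m y hy z hz
    unfold same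
    rw [hcap m y hy, hcap m z hz, h.1.injOn.eq_iff hy hz, Set.image_nonempty,
      h.1.injOn.image_eq_image_iff (hcsub m y hy) (hcsub m z hz)]
  have hcs : ∀ k, cellSet ns G' θ' k (φ y) = φ '' cellSet ns G θ k y := by
    intro k
    ext z'
    constructor
    · intro hz'
      have h1 : z' ∈ comp G' (φ x) :=
        SimpleGraph.Reachable.trans (h.1.mapsTo hy) (same_reach hW (hz' k le_rfl))
      obtain ⟨z, hz, rfl⟩ := h.1.surjOn h1
      exact ⟨z, fun m hm => (hsame m y hy z hz).1 (hz' m hm), rfl⟩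
    · rintro ⟨z, hz, rfl⟩ m hm
      exact (hsame m y hy z (SimpleGraph.Reachable.trans hy
        (same_reach hW (hz m hm)))).2 (hz m hm)
  cases k with
  | zero => simp [cell]
  | succ k =>
    have hsub : cellSet ns G θ k y ⊆ comp G x := fun z hz =>
      SimpleGraph.Reachable.trans hy (same_reach hW (hz k le_rfl))
    simp only [cell]
    by_cases h1 : (cellSet ns G θ k y).Finite
    · have h2 : (cellSet ns G' θ' k (φ y)).Finite := by
        rw [hcs]
        exact h1.image _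
      rw [dif_pos h1, dif_pos h2]
      apply Finset.coe_injective
      rw [Finset.coe_image, Set.Finite.coe_toFinset, Set.Finite.coe_toFinset, hcs]
    · have h2 : ¬ (cellSet ns G' θ' k (φ y)).Finite := by
        rw [hcs]
        intro h2
        exact h1 (h2.of_finite_image (h.1.injOn.mono hsub))
      rw [dif_neg h1, dif_neg h2, Finset.image_singleton]

theorem t_EQ : S_IDL → S_WALK → S_EQ := by
  intro hI hW F ns G G' x φ h o o' θ θ' u u' ho hθ hu y hy z hz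
  refine Ph_image F (tr_of_ciso h) ?_ ?_ ho hu hy hz
  · intro k v hv w hw
    exact SimpleGraph.Reachable.trans hv (cell_sub hW k (Finset.mem_coe.1 hw))
  · intro k v hv
    have h1 := cell_image hI hW (ns := ns) h hθ k hv
    convert h1

end Pool.Agent.J4H63.WU
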