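import Mathlib
import Pool.Agent.J4H89.WU.Bas

/-!
# The monotone update rule
-/

namespace Pool.Agent.J4H63.WU

open MeasureTheory
open Pool.Agent.J4H89.WU
open Pool.Agent.TH968.UST
open scoped ENNReal unitInterval

/-- sampling from a finite probability vector -/
theorem sample {X : Type*} [Countable X] (D : Finset X) (p : X → ℝ) (hp : ∀ x ∈ D, 0 ≤ p x)
    (h1 : ∑ x ∈ D, p x = 1) :
    ∃ f : I → X, (∀ u, f u ∈ D ∧ p (f u) ≠ 0) ∧ (∀ x, MeasurableSet {u | f u = x}) ∧
      ∀ x ∈ D, (volume {u | f u = x}).toReal = p x := by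
  classical
  let mX : MeasurableSpace X := ⊤
  have hd : ∃ d ∈ D, p d ≠ 0 := by
    by_contra h
    push Not at h
    rw [Finset.sum_eq_zero h] at h1
    exact zero_ne_one h1
  obtain ⟨d, hdD, hd0⟩ := hd
  let μ : Measure X := ∑ x ∈ D, ENNReal.ofReal (p x) • Measure.dirac x
  have hμ : ∀ s : Set X, μ s = ∑ x ∈ D, ENNReal.ofReal (p x) * s.indicator 1 x := by
    intro s
    simp only [μ, Measure.finset_sum_apply, Measure.smul_apply, smul_eq_mul]
    refine Finset.sum_congr rfl fun x _ => ?_
    rw [Measure.dirac_apply' _ (MeasurableSpace.measurableSet_top)]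
  have hμ1 : IsProbabilityMeasure μ := by
    refine ⟨?_⟩
    rw [hμ]
    simp only [Set.indicator_univ, Pi.one_apply, mul_one]
    rw [← ENNReal.ofReal_sum_of_nonneg hp, h1, ENNReal.ofReal_one]
  haveI : Nonempty X := ⟨d⟩
  obtain ⟨g, hg, hgμ⟩ := Measure.exists_measurable_map_eq μ
  have hm : ∀ s : Set X, MeasurableSet (g ⁻¹' s) := fun s => hg (MeasurableSpace.measurableSet_top)
  have hv : ∀ s : Set X, volume (g ⁻¹' s) = ∑ x ∈ D, ENNReal.ofReal (p x) * s.indicator 1 x := by
    intro s
    rw [← hμ, ← hgμ, Measure.map_apply hg (MeasurableSpace.measurableSet_top)]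
  have hbad : volume (g ⁻¹' {x | ¬ (x ∈ D ∧ p x ≠ 0)}) = 0 := by
    rw [hv]
    refine Finset.sum_eq_zero fun x hx => ?_
    by_cases h : p x = 0
    · simp [h]
    · rw [Set.indicator_of_notMem, mul_zero]
      simp [hx, h]
  refine ⟨fun u => if g u ∈ D ∧ p (g u) ≠ 0 then g u else d, ?_, ?_, ?_⟩
  · intro u
    by_cases h : g u ∈ D ∧ p (g u) ≠ 0
    · simp only [if_pos h]
      exact h
    · simp only [if_neg h]
      exact ⟨hdD, hd0⟩
  · intro x
    have : {u | (if g u ∈ D ∧ p (g u) ≠ 0 then g u else d) = x} =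
        g ⁻¹' {y | (if y ∈ D ∧ p y ≠ 0 then y else d) = x} := rfl
    rw [this]
    exact hm _
  · intro x hx
    have h2 : volume {u | (if g u ∈ D ∧ p (g u) ≠ 0 then g u else d) = x} =
        volume (g ⁻¹' {x}) := by
      refine measure_congr ?_
      have h3 : ∀ᵐ u : I, ¬ ¬ (g u ∈ D ∧ p (g u) ≠ 0) := by
        rw [ae_iff]
        simpa using hbad
      filter_upwards [h3] with u hu
      rw [not_not] at hu
      apply propext
      change ((if g u ∈ D ∧ p (g u) ≠ 0 then g u else d) = x) ↔ g u ∈ ({x} : Set X)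
      rw [if_pos hu, Set.mem_singleton_iff]
    rw [h2, hv, Finset.sum_eq_single x]
    · simp [hp x hx]
    · intro y _ hy
      rw [Set.indicator_of_notMem (by simpa using hy), mul_zero]
    · intro h
      exact absurd hx h

open Classical in
/-- numerators of `mu` -/
noncomputable def mn (E : Finset (Sym2 ℕ)) (C : Finset ℕ) (S : Finset (Sym2 ℕ)) : ℕ :=
  ((trees (wired C) (tch E C)).filter fun T => T ∩ inn E C = S).card

open Classical in
/-- denominator of `mu` -/
noncomputable def md (E : Finset (Sym2 ℕ)) (C : Finset ℕ) : ℕ :=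
  (trees (wired C) (tch E C)).card

open Classical in
/-- numerators of `nu` -/
noncomputable def nn (E : Finset (Sym2 ℕ)) (Q : Finset (Finset ℕ)) (S : Finset (Sym2 ℕ)) : ℕ :=
  if S ⊆ Q.biUnion (inn E) then ∏ B ∈ Q, mn E B (S ∩ inn E B) else 0

/-- denominator of `nu` -/
noncomputable def nd (E : Finset (Sym2 ℕ)) (Q : Finset (Finset ℕ)) : ℕ := ∏ B ∈ Q, md E B

theorem mu_eq (E : Finset (Sym2 ℕ)) (C : Finset ℕ) (S : Finset (Sym2 ℕ)) :
    mu E C S = (mn E C S : ℝ) / (md E C : ℝ) := by
  unfold mu mn md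
  rfl

theorem nu_eq (E : Finset (Sym2 ℕ)) (Q : Finset (Finset ℕ)) (S : Finset (Sym2 ℕ)) :
    nu E Q S = (nn E Q S : ℝ) / (nd E Q : ℝ) := by
  classical
  unfold nu nn nd
  by_cases h : S ⊆ Q.biUnion (inn E)
  · have h' : S ⊆ Q.biUnion (inn E) := h
    rw [if_pos (by convert h), if_pos h']
    push_cast
    rw [← Finset.prod_div_distrib]
    refine Finset.prod_congr rfl fun B _ => ?_
    rw [mu_eq]
  · rw [if_neg (by convert h), if_neg h]
    simp

theorem mu_out {E : Finset (Sym2 ℕ)} {C : Finset ℕ} {S : Finset (Sym2 ℕ)}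
    (h : ¬ S ⊆ inn E C) : mu E C S = 0 := by
  classical
  rw [mu_eq]
  have : mn E C S = 0 := by
    unfold mn
    rw [Finset.card_eq_zero, Finset.filter_eq_empty_iff]
    intro T _ hT
    apply h
    rw [← hT]
    exact Finset.inter_subset_right
  rw [this]
  simp

/-- the kernel -/
theorem kernel (hD : S_DOM) (hS : S_STR) (E : Finset (Sym2 ℕ)) (C : Finset ℕ)
    (Q : Finset (Finset ℕ)) (h : IsPart C Q) :
    ∃ κ : Finset (Sym2 ℕ) → Finset (Sym2 ℕ) → ℝ,
      (∀ S T, 0 ≤ κ S T) ∧ (∀ S ∈ (inn E C).powerset, ∑ T ∈ (inn E C).powerset, κ S T = 1) ∧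
      (∀ S ∈ (inn E C).powerset, ∀ T, κ S T ≠ 0 → S ⊆ T) ∧
      ∀ T ∈ (inn E C).powerset, ∑ S ∈ (inn E C).powerset, nu E Q S * κ S T = mu E C T := by
  classical
  set M := inn E C with hM
  have hd := hD E C Q h
  rw [← hM] at hd
  have hle := hd (fun _ => 1) (fun _ _ _ => le_refl _)
  have hge := hd (fun _ => -1) (fun _ _ _ => le_refl _)
  simp only [mul_one, mul_neg, Finset.sum_neg_distrib, neg_le_neg_iff] at hle hge
  have htot : ∑ S ∈ M.powerset, nu E Q S = ∑ S ∈ M.powerset, mu E C S := le_antisymm hle hge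
  have nun : ∀ S, 0 ≤ nu E Q S := fun S => by rw [nu_eq]; positivity
  have mun : ∀ S, 0 ≤ mu E C S := fun S => by rw [mu_eq]; positivity
  by_cases h0 : md E C = 0 ∨ nd E Q = 0
  · have hz : ∑ S ∈ M.powerset, nu E Q S = 0 ∧ ∑ S ∈ M.powerset, mu E C S = 0 := by
      rcases h0 with h0 | h0
      · have : ∑ S ∈ M.powerset, mu E C S = 0 :=
          Finset.sum_eq_zero fun S _ => by rw [mu_eq, h0]; simp
        exact ⟨htot.trans this, this⟩
      · have : ∑ S ∈ M.powerset, nu E Q S = 0 :=
          Finset.sum_eq_zero fun S _ => by rw [nu_eq, h0]; simp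
        exact ⟨this, htot.symm.trans this⟩
    refine ⟨fun _ T => if T = M then 1 else 0, ?_, ?_, ?_, ?_⟩
    · intro S T
      dsimp only
      split_ifs <;> norm_num
    · intro S _
      rw [Finset.sum_ite_eq' , if_pos (Finset.mem_powerset_self M)]
    · intro S hS T hT
      dsimp only at hT
      split_ifs at hT with h1
      · rw [h1]
        exact Finset.mem_powerset.1 hS
      · exact absurd rfl hT
    · intro T hT
      rw [← Finset.sum_mul, hz.1, zero_mul]
      exact ((Finset.sum_eq_zero_iff_of_nonneg fun S _ => mun S).1 hz.2 T hT).symm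
  · push Not at h0
    obtain ⟨h1, h2⟩ := h0
    have h1' : (md E C : ℝ) ≠ 0 := Nat.cast_ne_zero.2 h1
    have h2' : (nd E Q : ℝ) ≠ 0 := Nat.cast_ne_zero.2 h2
    have h12 : (0 : ℝ) < (md E C : ℝ) * (nd E Q : ℝ) := by
      have := Nat.pos_of_ne_zero h1
      have := Nat.pos_of_ne_zero h2
      positivity
    have ea : ∀ S, ((nn E Q S * md E C : ℕ) : ℝ) =
        nu E Q S * ((md E C : ℝ) * (nd E Q : ℝ)) := by
      intro S
      rw [nu_eq]
      push_cast
      field_simp
    have eb : ∀ S, ((mn E C S * nd E Q : ℕ) : ℝ) =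
        mu E C S * ((md E C : ℝ) * (nd E Q : ℝ)) := by
      intro S
      rw [mu_eq]
      push_cast
      field_simp
    obtain ⟨c, c1, c2, c3⟩ := hS M (fun S => nn E Q S * md E C) (fun S => mn E C S * nd E Q)
      (by
        have : ((∑ S ∈ M.powerset, nn E Q S * md E C : ℕ) : ℝ) =
            ((∑ S ∈ M.powerset, mn E C S * nd E Q : ℕ) : ℝ) := by
          rw [Nat.cast_sum, Nat.cast_sum, Finset.sum_congr rfl fun S _ => ea S,
            Finset.sum_congr rfl fun S _ => eb S, ← Finset.sum_mul, ← Finset.sum_mul, htot]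
        exact_mod_cast this)
      (by
        intro U hU hup
        have h3 := hd (fun S => if ∃ S0 ∈ U, S0 ⊆ S then 1 else 0) (by
          intro S T hST
          by_cases h4 : ∃ S0 ∈ U, S0 ⊆ S
          · rw [if_pos h4, if_pos]
            obtain ⟨S0, h5, h6⟩ := h4
            exact ⟨S0, h5, h6.trans hST⟩
          · rw [if_neg h4]
            split_ifs <;> norm_num)
        have h4 : ∀ w : Finset (Sym2 ℕ) → ℝ,
            ∑ S ∈ M.powerset, w S * (if ∃ S0 ∈ U, S0 ⊆ S then (1 : ℝ) else 0) =
              ∑ S ∈ U, w S := by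
          intro w
          rw [← Finset.sum_subset hU]
          · refine Finset.sum_congr rfl fun S hS => ?_
            rw [if_pos ⟨S, hS, Finset.Subset.refl _⟩, mul_one]
          · intro S hS hSU
            rw [if_neg, mul_zero]
            rintro ⟨S0, h5, h6⟩
            exact hSU (hup S0 h5 S hS h6)
        rw [h4, h4] at h3
        have : ((∑ S ∈ U, nn E Q S * md E C : ℕ) : ℝ) ≤
            ((∑ S ∈ U, mn E C S * nd E Q : ℕ) : ℝ) := by
          rw [Nat.cast_sum, Nat.cast_sum, Finset.sum_congr rfl fun S _ => ea S,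
            Finset.sum_congr rfl fun S _ => eb S, ← Finset.sum_mul, ← Finset.sum_mul]
          exact mul_le_mul_of_nonneg_right h3 h12.le
        exact_mod_cast this)
    refine ⟨fun S T => if nn E Q S * md E C = 0 then (if T = M then 1 else 0) else
      (c S T : ℝ) / ((nn E Q S * md E C : ℕ) : ℝ), ?_, ?_, ?_, ?_⟩
    · intro S T
      beta_reduce
      split_ifs
      · norm_num
      · norm_num
      · positivity
    · intro S hS'
      beta_reduce
      by_cases h5 : nn E Q S * md E C = 0
      · simp only [if_pos h5]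
        rw [Finset.sum_ite_eq', if_pos (Finset.mem_powerset_self M)]
      · simp only [if_neg h5]
        rw [← Finset.sum_div, ← Nat.cast_sum, c1 S hS', div_self (Nat.cast_ne_zero.2 h5)]
    · intro S hS' T hT
      dsimp only at hT
      by_cases h5 : nn E Q S * md E C = 0
      · rw [if_pos h5] at hT
        split_ifs at hT with h6
        · rw [h6]
          exact Finset.mem_powerset.1 hS'
        · exact absurd rfl hT
      · rw [if_neg h5] at hT
        apply c3
        intro h6
        rw [h6] at hT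
        simp at hT
    · intro T hT
      have h6 : ∀ S ∈ M.powerset, nu E Q S * (if nn E Q S * md E C = 0 then
          (if T = M then 1 else 0) else (c S T : ℝ) / ((nn E Q S * md E C : ℕ) : ℝ)) =
          (c S T : ℝ) / ((md E C : ℝ) * (nd E Q : ℝ)) := by
        intro S hS'
        have h7 : nu E Q S = ((nn E Q S * md E C : ℕ) : ℝ) / ((md E C : ℝ) * (nd E Q : ℝ)) := by
          rw [ea S]
          field_simp
        by_cases h5 : nn E Q S * md E C = 0
        · rw [if_pos h5, h7, h5]
          have h8 : c S T = 0 := by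
            have h9 := c1 S hS'
            rw [h5] at h9
            exact Finset.sum_eq_zero_iff.1 h9 T hT
          rw [h8]
          simp
        · rw [if_neg h5, h7]
          have : ((nn E Q S * md E C : ℕ) : ℝ) ≠ 0 := Nat.cast_ne_zero.2 h5
          field_simp
      dsimp only
      rw [Finset.sum_congr rfl h6, ← Finset.sum_div, ← Nat.cast_sum, c2 T hT, eb T]
      field_simp

theorem t_KER : S_DOM → S_STR → S_KER := by
  classical
  intro hD hS
  have key : ∀ (E : Finset (Sym2 ℕ)) (C : Finset ℕ) (Q : Finset (Finset ℕ)),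
      ∃ f : Finset (Sym2 ℕ) → I → Finset (Sym2 ℕ),
        (∀ S S', MeasurableSet {u | f S u = S'}) ∧ (∀ S u, S ⊆ inn E C → S ⊆ f S u) ∧
        (∀ S u, f S u ⊆ inn E C) ∧ (IsPart C Q → ∀ S' ∈ (inn E C).powerset,
          ∑ S ∈ (inn E C).powerset, nu E Q S * (volume {u | f S u = S'}).toReal =
            mu E C S') := by
    intro E C Q
    by_cases h : IsPart C Q
    · obtain ⟨κ, k0, k1, k2, k3⟩ := kernel hD hS E C Q h
      have h1 : ∀ S : Finset (Sym2 ℕ), ∃ f : I → Finset (Sym2 ℕ),
          (S ∈ (inn E C).powerset → ∀ u, f u ∈ (inn E C).powerset ∧ κ S (f u) ≠ 0) ∧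
          (S ∉ (inn E C).powerset → ∀ u, f u = inn E C) ∧
          (∀ x, MeasurableSet {u | f u = x}) ∧
          (S ∈ (inn E C).powerset → ∀ x ∈ (inn E C).powerset,
            (volume {u | f u = x}).toReal = κ S x) := by
        intro S
        by_cases h2 : S ∈ (inn E C).powerset
        · obtain ⟨f, f1, f2, f3⟩ := sample (inn E C).powerset (κ S) (fun x _ => k0 S x)
            (k1 S h2)
          exact ⟨f, fun _ => f1, fun h3 => absurd h2 h3, f2, fun _ => f3⟩
        · exact ⟨fun _ => inn E C, fun h3 => absurd h3 h2, fun _ _ => rfl,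
            fun x => MeasurableSet.const _, fun h3 => absurd h3 h2⟩
      choose f f1 f2 f3 f4 using h1
      refine ⟨f, f3, ?_, ?_, ?_⟩
      · intro S u h2
        have h3 := Finset.mem_powerset.2 h2
        exact k2 S h3 _ (f1 S h3 u).2
      · intro S u
        by_cases h2 : S ∈ (inn E C).powerset
        · exact Finset.mem_powerset.1 (f1 S h2 u).1
        · rw [f2 S h2 u]
      · intro _ S' h2
        rw [← k3 S' h2]
        refine Finset.sum_congr rfl fun S h3 => ?_
        rw [f4 S h3 S' h2]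
    · exact ⟨fun _ _ => inn E C, fun _ _ => MeasurableSet.const _, fun _ _ h => h,
        fun _ _ => Finset.Subset.refl _, fun h' => absurd h' h⟩
  choose F F1 F2 F3 F4 using key
  refine ⟨F, ⟨fun E C Q S S' => F1 E C Q S S', fun E C Q S u h => F2 E C Q S u h,
    fun E C Q S u => F3 E C Q S u, ?_⟩⟩
  intro E C Q h S'
  by_cases h1 : S' ∈ (inn E C).powerset
  · exact F4 E C Q h S' h1
  · rw [mu_out (fun h2 => h1 (Finset.mem_powerset.2 h2))]
    refine Finset.sum_eq_zero fun S _ => ?_
    have : {u | F E C Q S u = S'} = ∅ := by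
      ext u
      simp only [Set.mem_setOf_eq, Set.mem_empty_iff_false, iff_false]
      intro h2
      apply h1
      rw [← h2]
      exact Finset.mem_powerset.2 (F3 E C Q S u)
    rw [this]
    simp

end Pool.Agent.J4H63.WU
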