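import Mathlib
import Pool.Agent.J4H89.WU.Stm

/-!
# One uniform label gives a label and two sequences of labels
-/

namespace Pool.Agent.J4H63.WU

open MeasureTheory
open Pool.Agent.J4H89.WU
open scoped ENNReal unitInterval

theorem sumPi (α β : Type*) :
    (Measure.infinitePi fun _ : α ⊕ β => (volume : Measure I)).map
        (fun w => ((fun a => w (Sum.inl a)), fun b => w (Sum.inr b))) =
      (Measure.infinitePi fun _ : α => (volume : Measure I)).prod
        (Measure.infinitePi fun _ : β => (volume : Measure I)) := by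
  classical
  have h1 : ((Measure.infinitePi fun _ : α => (volume : Measure I)).prod
      (Measure.infinitePi fun _ : β => (volume : Measure I))).map
        (fun p => fun i : α ⊕ β => Sum.elim p.1 p.2 i) =
      Measure.infinitePi fun _ : α ⊕ β => (volume : Measure I) := by
    have hm : Measurable fun (p : (α → I) × (β → I)) => fun i : α ⊕ β => Sum.elim p.1 p.2 i := by
      refine measurable_pi_lambda _ fun i => ?_
      rcases i with a | b
      · exact (measurable_pi_apply a).comp measurable_fst
      · exact (measurable_pi_apply b).comp measurable_snd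
    refine Measure.eq_infinitePi _ fun s t ht => ?_
    rw [Measure.map_apply hm (MeasurableSet.pi s.countable_toSet fun i _ => ht i)]
    have h2 : (fun (p : (α → I) × (β → I)) => fun i : α ⊕ β => Sum.elim p.1 p.2 i) ⁻¹'
        (Set.pi s t) = (Set.pi (s.toLeft : Set α) fun a => t (Sum.inl a)) ×ˢ
          (Set.pi (s.toRight : Set β) fun b => t (Sum.inr b)) := by
      ext p
      simp only [Set.mem_preimage, Set.mem_pi, Set.mem_prod, Finset.mem_coe,
        Finset.mem_toLeft, Finset.mem_toRight, Sum.forall, Sum.elim_inl, Sum.elim_inr]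
    rw [h2, Measure.prod_prod, Measure.infinitePi_pi _ (fun i _ => ht _),
      Measure.infinitePi_pi _ (fun i _ => ht _)]
    conv_rhs => rw [← Finset.toLeft_disjSum_toRight (u := s)]
    rw [Finset.prod_disjSum]
  have hm2 : Measurable fun (w : α ⊕ β → I) =>
      ((fun a => w (Sum.inl a)), fun b => w (Sum.inr b)) := by fun_prop
  have hm : Measurable fun (p : (α → I) × (β → I)) => fun i : α ⊕ β => Sum.elim p.1 p.2 i := by
    refine measurable_pi_lambda _ fun i => ?_
    rcases i with a | b
    · exact (measurable_pi_apply a).comp measurable_fst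
    · exact (measurable_pi_apply b).comp measurable_snd
  rw [← h1, Measure.map_map hm2 hm]
  exact Measure.map_id

/-- where the labels go -/
def sg : ℕ ⊕ ((ℕ × ℕ) ⊕ (ℕ × ℕ)) → ℕ × ℕ
  | Sum.inl v => (v, 0)
  | Sum.inr (Sum.inl p) => (p.1, 2 * p.2 + 1)
  | Sum.inr (Sum.inr p) => (p.1, 2 * p.2 + 2)

theorem sg_inj : Function.Injective sg := by
  rintro (v | ⟨p⟩ | ⟨p⟩) (w | ⟨q⟩ | ⟨q⟩) h <;> simp only [sg, Prod.mk.injEq] at h
  · rw [h.1]
  · omega
  · omega
  · omega
  · rw [Prod.ext h.1 (by omega)]
  · omega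
  · omega
  · omega
  · rw [Prod.ext h.1 (by omega)]

theorem t_SPLIT : S_SPLIT := by
  obtain ⟨g, hg, hgl⟩ := Measure.exists_measurable_map_eq lab
  refine ⟨fun u => (g u 0, (fun j => g u (2 * j + 1)), fun j => g u (2 * j + 2)), by fun_prop, ?_⟩
  have e1 : lab.map (fun (U : ℕ → I) (v : ℕ) => g (U v)) = lab2 := by
    unfold lab
    rw [Measure.infinitePi_map_pi (fun _ => (volume : Measure I)) (f := fun _ => g) fun _ => hg]
    unfold lab2
    rw [hgl]
  have e2 : lab2 = (Measure.infinitePi fun _ : ℕ × ℕ => (volume : Measure I)).map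
      (fun w v j => w (v, j)) := by
    exact (Measure.infinitePi_map_curry (ι := ℕ) (κ := ℕ)
      (fun _ _ => (volume : Measure I))).symm
  have e3 : (Measure.infinitePi fun _ : ℕ × ℕ => (volume : Measure I)).map
      (fun w k => w (sg k)) = Measure.infinitePi fun _ => (volume : Measure I) :=
    Measure.map_infinitePi_infinitePi_of_inj (P := fun _ : ℕ × ℕ => (volume : Measure I)) sg_inj
  have e4 : (Measure.infinitePi fun _ : ℕ ⊕ ((ℕ × ℕ) ⊕ (ℕ × ℕ)) => (volume : Measure I)).map
      (fun w => ((fun v => w (Sum.inl v)), (fun v j => w (Sum.inr (Sum.inl (v, j)))),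
        fun v j => w (Sum.inr (Sum.inr (v, j))))) = lab.prod (lab2.prod lab2) := by
    have h1 := sumPi ℕ ((ℕ × ℕ) ⊕ (ℕ × ℕ))
    have h2 := sumPi (ℕ × ℕ) (ℕ × ℕ)
    have h3 : lab2.prod lab2 = (Measure.infinitePi fun _ : (ℕ × ℕ) ⊕ (ℕ × ℕ) =>
        (volume : Measure I)).map (fun w => ((fun v j => w (Sum.inl (v, j))),
          fun v j => w (Sum.inr (v, j)))) := by
      rw [e2, Measure.map_prod_map _ _ (by fun_prop) (by fun_prop), ← h2,
        Measure.map_map (by fun_prop) (by fun_prop)]
      rfl
    have h4 : lab.prod (lab2.prod lab2) = ((Measure.infinitePi fun _ : ℕ =>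
        (volume : Measure I)).map id).prod ((Measure.infinitePi fun _ : (ℕ × ℕ) ⊕ (ℕ × ℕ) =>
        (volume : Measure I)).map (fun w => ((fun v j => w (Sum.inl (v, j))),
          fun v j => w (Sum.inr (v, j))))) := by
      rw [Measure.map_id, h3]
      rfl
    rw [h4, Measure.map_prod_map _ _ (by fun_prop) (by fun_prop), ← h1,
      Measure.map_map (by fun_prop) (by fun_prop)]
    rfl
  rw [← e4, ← e3, Measure.map_map (by fun_prop) (by fun_prop)]
  have e5 : (fun (U : ℕ → I) => ((fun v => g (U v) 0), (fun v j => g (U v) (2 * j + 1)),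
      fun v j => g (U v) (2 * j + 2))) =
      (fun (w : ℕ → ℕ → I) => ((fun v => w v 0), (fun v j => w v (2 * j + 1)),
        fun v j => w v (2 * j + 2))) ∘ (fun (U : ℕ → I) (v : ℕ) => g (U v)) := rfl
  rw [e5, ← Measure.map_map (by fun_prop) (by fun_prop), e1, e2,
    Measure.map_map (by fun_prop) (by fun_prop)]
  rfl

end Pool.Agent.J4H63.WU
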