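import Mathlib
import Pool.Agent.J4H89.WU.Stm

/-!
# Strassen's theorem with integer weights, from Hall's theorem
-/

namespace Pool.Agent.J4H63.WU

open Pool.Agent.J4H89.WU

theorem str {ι : Type*} [Fintype ι] (R : ι → ι → Prop) (hr : ∀ x, R x x)
    (ht : ∀ x y z, R x y → R y z → R x z) (a b : ι → ℕ) (h1 : ∑ x, a x = ∑ x, b x)
    (h2 : ∀ U : Finset ι, (∀ x ∈ U, ∀ y, R x y → y ∈ U) → ∑ x ∈ U, a x ≤ ∑ x ∈ U, b x) :
    ∃ c : ι → ι → ℕ, (∀ x, ∑ y, c x y = a x) ∧ (∀ y, ∑ x, c x y = b y) ∧
      ∀ x y, c x y ≠ 0 → R x y := by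
  classical
  let t : (Σ x : ι, Fin (a x)) → Finset (Σ x : ι, Fin (b x)) :=
    fun x => Finset.univ.filter fun y => R x.1 y.1
  have hall : ∀ s : Finset (Σ x : ι, Fin (a x)), s.card ≤ (s.biUnion t).card := by
    intro s
    let U : Finset ι := Finset.univ.filter fun y => ∃ x ∈ s, R x.1 y
    have e1 : s ⊆ U.sigma fun x => (Finset.univ : Finset (Fin (a x))) := by
      intro x hx
      refine Finset.mem_sigma.2 ⟨Finset.mem_filter.2 ⟨Finset.mem_univ _, x, hx, hr _⟩,
        Finset.mem_univ _⟩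
    have e2 : (U.sigma fun x => (Finset.univ : Finset (Fin (b x)))) ⊆ s.biUnion t := by
      intro y hy
      obtain ⟨x, hx, hxy⟩ := (Finset.mem_filter.1 (Finset.mem_sigma.1 hy).1).2
      exact Finset.mem_biUnion.2 ⟨x, hx, Finset.mem_filter.2 ⟨Finset.mem_univ _, hxy⟩⟩
    calc s.card ≤ (U.sigma fun x => (Finset.univ : Finset (Fin (a x)))).card :=
          Finset.card_le_card e1
      _ = ∑ x ∈ U, a x := by simp [Finset.card_sigma]
      _ ≤ ∑ x ∈ U, b x := by
          apply h2
          intro x hx y hxy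
          obtain ⟨z, hz, hzx⟩ := (Finset.mem_filter.1 hx).2
          exact Finset.mem_filter.2 ⟨Finset.mem_univ _, z, hz, ht _ _ _ hzx hxy⟩
      _ = (U.sigma fun x => (Finset.univ : Finset (Fin (b x)))).card := by
          simp [Finset.card_sigma]
      _ ≤ (s.biUnion t).card := Finset.card_le_card e2
  obtain ⟨f, hf, hft⟩ := (Finset.all_card_le_biUnion_card_iff_exists_injective t).1 hall
  have hb : Function.Bijective f :=
    (Fintype.bijective_iff_injective_and_card f).2 ⟨hf, by simp [Fintype.card_sigma, h1]⟩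
  refine ⟨fun x y => (Finset.univ.filter fun i : Fin (a x) => (f ⟨x, i⟩).1 = y).card,
    ?_, ?_, ?_⟩
  · intro x
    have h := Finset.card_eq_sum_card_fiberwise (s := (Finset.univ : Finset (Fin (a x))))
      (t := (Finset.univ : Finset ι)) (f := fun i => (f ⟨x, i⟩).1) (fun _ _ => Finset.mem_coe.2
        (Finset.mem_univ _))
    simpa using h.symm
  · intro y
    have h3 : (Finset.univ.filter fun z : (Σ x : ι, Fin (a x)) => (f z).1 = y).card = b y := by
      have h4 : (Finset.univ.filter fun z : (Σ x : ι, Fin (a x)) => (f z).1 = y).image f =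
          (Finset.univ : Finset (Fin (b y))).image (fun i => (⟨y, i⟩ : Σ x : ι, Fin (b x))) := by
        ext w
        constructor
        · intro hw
          obtain ⟨z, hz, rfl⟩ := Finset.mem_image.1 hw
          have hz := (Finset.mem_filter.1 hz).2
          refine Finset.mem_image.2 ⟨hz ▸ (f z).2, Finset.mem_univ _, ?_⟩
          ext
          · exact hz.symm
          · simp
        · intro hw
          obtain ⟨i, -, rfl⟩ := Finset.mem_image.1 hw
          obtain ⟨z, hz⟩ := hb.2 ⟨y, i⟩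
          exact Finset.mem_image.2 ⟨z, Finset.mem_filter.2 ⟨Finset.mem_univ _, by rw [hz]⟩, hz⟩
      rw [← Finset.card_image_of_injective _ hf, h4, Finset.card_image_of_injective]
      · simp
      · intro i j hij
        simpa using hij
    rw [← h3]
    have h5 : (Finset.univ.filter fun z : (Σ x : ι, Fin (a x)) => (f z).1 = y) =
        (Finset.univ : Finset ι).sigma fun x =>
          Finset.univ.filter fun i : Fin (a x) => (f ⟨x, i⟩).1 = y := by
      ext z
      simp
    rw [h5, Finset.card_sigma]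
  · intro x y hxy
    obtain ⟨i, hi⟩ := Finset.card_ne_zero.1 hxy
    have h3 := (Finset.mem_filter.1 (hft ⟨x, i⟩)).2
    rw [(Finset.mem_filter.1 hi).2] at h3
    exact h3

theorem t_STR : S_STR := by
  classical
  intro M a b h1 h2
  obtain ⟨c, c1, c2, c3⟩ := str (ι := {S // S ∈ M.powerset}) (fun x y => x.1 ⊆ y.1)
    (fun x => Finset.Subset.refl _) (fun x y z => Finset.Subset.trans)
    (fun x => a x.1) (fun x => b x.1)
    (by rw [Finset.sum_coe_sort M.powerset a, Finset.sum_coe_sort M.powerset b]; exact h1)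
    (by
      intro U hU
      have h3 := h2 (U.map (Function.Embedding.subtype _)) (by
          intro S hS
          obtain ⟨x, -, rfl⟩ := Finset.mem_map.1 hS
          exact x.2) (by
          intro S hS T hT hST
          obtain ⟨x, hx, rfl⟩ := Finset.mem_map.1 hS
          exact Finset.mem_map.2 ⟨⟨T, hT⟩, hU x hx ⟨T, hT⟩ hST, rfl⟩)
      simpa [Finset.sum_map] using h3)
  refine ⟨fun S T => if h : S ∈ M.powerset ∧ T ∈ M.powerset then c ⟨S, h.1⟩ ⟨T, h.2⟩ else 0,
    ?_, ?_, ?_⟩
  · intro S hS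
    rw [← c1 ⟨S, hS⟩, ← Finset.sum_coe_sort M.powerset]
    refine Finset.sum_congr rfl fun T _ => ?_
    exact dif_pos (⟨hS, T.2⟩ : S ∈ M.powerset ∧ T.1 ∈ M.powerset)
  · intro T hT
    rw [← c2 ⟨T, hT⟩, ← Finset.sum_coe_sort M.powerset]
    refine Finset.sum_congr rfl fun S _ => ?_
    exact dif_pos (⟨S.2, hT⟩ : S.1 ∈ M.powerset ∧ T ∈ M.powerset)
  · intro S T hST
    by_cases h : S ∈ M.powerset ∧ T ∈ M.powerset
    · simp only [dif_pos h] at hST
      exact c3 _ _ hST
    · simp only [dif_neg h] at hST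
      exact absurd rfl hST

end Pool.Agent.J4H63.WU
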